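import Pool.Agent.Helper92.PU.St

/-!
# Project PU, module GC: products of binary forms
-/

set_option autoImplicit false

open Finset

namespace Pool.Agent.Helper80.PU

open Pool.Agent.Helper92.PU Pool.Agent.Helper92.PW

private def IsF (d : ℕ) (f : ℤ × ℤ → ℝ) : Prop :=
  ∃ g : ℕ → ℝ, ∀ w : ℤ × ℤ, bf d g (w.1 : ℝ) (w.2 : ℝ) = f w

private lemma IsF.add {d : ℕ} {f f' : ℤ × ℤ → ℝ} (h : IsF d f) (h' : IsF d f') :
    IsF d (fun w => f w + f' w) := by
  obtain ⟨g, hg⟩ := h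
  obtain ⟨g', hg'⟩ := h'
  refine ⟨fun i => g i + g' i, fun w => ?_⟩
  show _ = f w + f' w
  rw [← hg, ← hg']
  unfold bf
  rw [← Finset.sum_add_distrib]
  refine Finset.sum_congr rfl fun i _ => ?_
  ring

private lemma IsF.smul {d : ℕ} {f : ℤ × ℤ → ℝ} (c : ℝ) (h : IsF d f) :
    IsF d (fun w => c * f w) := by
  obtain ⟨g, hg⟩ := h
  refine ⟨fun i => c * g i, fun w => ?_⟩
  show _ = c * f w
  rw [← hg]
  unfold bf
  rw [Finset.mul_sum]
  refine Finset.sum_congr rfl fun i _ => ?_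
  ring

private lemma IsF.mul {a b : ℕ} {f f' : ℤ × ℤ → ℝ} (h : IsF a f) (h' : IsF b f') :
    IsF (a + b) (fun w => f w * f' w) := by
  obtain ⟨g, hg⟩ := h
  obtain ⟨g', hg'⟩ := h'
  refine ⟨fun n => ∑ p ∈ (range (a + 1) ×ˢ range (b + 1)).filter (fun p => p.1 + p.2 = n),
    g p.1 * g' p.2, fun w => ?_⟩
  show _ = f w * f' w
  rw [← hg, ← hg']
  unfold bf
  rw [Finset.sum_mul_sum, ← Finset.sum_product', ← Finset.sum_fiberwise_of_maps_to
    (s := range (a + 1) ×ˢ range (b + 1)) (t := range (a + b + 1)) (g := fun p => p.1 + p.2)]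
  · refine Finset.sum_congr rfl fun n _ => ?_
    rw [Finset.sum_mul, Finset.sum_mul]
    refine Finset.sum_congr rfl fun p hp => ?_
    rw [Finset.mem_filter, Finset.mem_product, Finset.mem_range, Finset.mem_range] at hp
    obtain ⟨⟨h1, h2⟩, h3⟩ := hp
    have e1 : a + b - n = (a - p.1) + (b - p.2) := by omega
    rw [e1, ← h3, pow_add, pow_add]
    ring
  · intro p hp
    rw [Finset.mem_product, Finset.mem_range, Finset.mem_range] at hp
    rw [Finset.mem_range]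
    omega

private lemma IsF.lin (α β : ℝ) : IsF 1 (fun w => α * (w.1 : ℝ) + β * (w.2 : ℝ)) := by
  refine ⟨fun i => if i = 0 then β else α, fun w => ?_⟩
  unfold bf
  simp [Finset.sum_range_succ]
  ring

private lemma IsF.congr {d : ℕ} {f f' : ℤ × ℤ → ℝ} (h : IsF d f) (he : ∀ w, f w = f' w) :
    IsF d f' := by
  have : f = f' := funext he
  rwa [← this]

private lemma IsF.pow3 {d : ℕ} {f : ℤ × ℤ → ℝ} (h : IsF d f) : IsF (d + d + d) (fun w => f w ^ 3) :=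
  ((h.mul h).mul h).congr fun w => by ring

private lemma lf1 (e1 e2 : Pt) : IsF 1 (fun w => ((lf e1 e2 w).1 : ℝ)) :=
  (IsF.lin (e1.1 : ℝ) (e2.1 : ℝ)).congr fun w => by
    simp only [lf, Prod.fst_add, Prod.smul_fst, smul_eq_mul]
    push_cast
    ring

private lemma lf2 (e1 e2 : Pt) : IsF 1 (fun w => ((lf e1 e2 w).2.1 : ℝ)) :=
  (IsF.lin (e1.2.1 : ℝ) (e2.2.1 : ℝ)).congr fun w => by
    simp only [lf, Prod.fst_add, Prod.snd_add, Prod.smul_snd, Prod.smul_fst, smul_eq_mul]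
    push_cast
    ring

private lemma lf3 (e1 e2 : Pt) : IsF 1 (fun w => ((lf e1 e2 w).2.2 : ℝ)) :=
  (IsF.lin (e1.2.2 : ℝ) (e2.2.2 : ℝ)).congr fun w => by
    simp only [lf, Prod.snd_add, Prod.smul_snd, smul_eq_mul]
    push_cast
    ring

private lemma lbF (Q : Fin 6 → ℤ) (p0 f1 f2 : Pt) : IsF 1 (fun w => (lb Q p0 f1 f2 w : ℝ)) :=
  (IsF.lin (Bf Q p0 f1 : ℝ) (Bf Q p0 f2 : ℝ)).congr fun w => by
    simp only [lb]
    push_cast
    ring

private lemma qqF (Q : Fin 6 → ℤ) (f1 f2 : Pt) : IsF 2 (fun w => (qq Q f1 f2 w : ℝ)) := by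
  have x := lf1 f1 f2
  have y := lf2 f1 f2
  have z := lf3 f1 f2
  have h := ((((((x.mul x).smul (Q 0 : ℝ)).add ((x.mul y).smul (Q 1 : ℝ))).add
    ((y.mul y).smul (Q 2 : ℝ))).add ((x.mul z).smul (Q 3 : ℝ))).add
    ((y.mul z).smul (Q 4 : ℝ))).add ((z.mul z).smul (Q 5 : ℝ))
  refine h.congr fun w => ?_
  have e : qq Q f1 f2 w = Q 0 * (lf f1 f2 w).1 ^ 2 + Q 1 * ((lf f1 f2 w).1 * (lf f1 f2 w).2.1) +
      Q 2 * (lf f1 f2 w).2.1 ^ 2 + Q 3 * ((lf f1 f2 w).1 * (lf f1 f2 w).2.2) +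
      Q 4 * ((lf f1 f2 w).2.1 * (lf f1 f2 w).2.2) + Q 5 * (lf f1 f2 w).2.2 ^ 2 := by
    simp only [qq, Qf, ver, Fin.sum_univ_six]
    rfl
  rw [e]
  push_cast
  ring

theorem hGC : StGC := by
  refine ⟨?_, ?_⟩
  · intro e1 e2
    have h : IsF 3 (fun w => (Fm (lf e1 e2 w) : ℝ)) := by
      have h := ((lf1 e1 e2).pow3.add (lf2 e1 e2).pow3).add (lf3 e1 e2).pow3
      refine h.congr fun w => ?_
      simp only [Fm]
      push_cast
      ring
    exact h
  · intro Q p0 f1 f2 c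
    have q := qqF Q f1 f2
    have l := lbF Q p0 f1 f2
    have c1 : IsF 2 (fun w => ((cur Q p0 f1 f2 w).1 : ℝ)) :=
      ((q.smul (-(p0.1 : ℝ))).add (l.mul (lf1 f1 f2))).congr fun w => by
        simp only [cur, Prod.fst_add, Prod.smul_fst, smul_eq_mul]
        push_cast
        ring
    have c2 : IsF 2 (fun w => ((cur Q p0 f1 f2 w).2.1 : ℝ)) :=
      ((q.smul (-(p0.2.1 : ℝ))).add (l.mul (lf2 f1 f2))).congr fun w => by
        simp only [cur, Prod.fst_add, Prod.snd_add, Prod.smul_snd, Prod.smul_fst, smul_eq_mul]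
        push_cast
        ring
    have c3 : IsF 2 (fun w => ((cur Q p0 f1 f2 w).2.2 : ℝ)) :=
      ((q.smul (-(p0.2.2 : ℝ))).add (l.mul (lf3 f1 f2))).congr fun w => by
        simp only [cur, Prod.snd_add, Prod.smul_snd, smul_eq_mul]
        push_cast
        ring
    have h : IsF 6 (fun w => (Fm (cur Q p0 f1 f2 w) : ℝ) / (c : ℝ) ^ 3) := by
      have h := ((c1.pow3.add c2.pow3).add c3.pow3).smul (1 / (c : ℝ) ^ 3)
      refine h.congr fun w => ?_
      simp only [Fm]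
      push_cast
      ring
    exact h

end Pool.Agent.Helper80.PU
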